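import Pool.Agent.Q63.BL.Main

/-!
# Bloch's conjecture for quotients of surfaces with many automorphisms
-/

set_option autoImplicit false

open CategoryTheory Opposite

universe u v w w'

namespace Pool.Agent.Q63.BL

variable {𝒮 : Type u} [Category.{v} 𝒮] {T : 𝒮 ⥤ ModuleCat.{w} ℚ}
  {Om : 𝒮ᵒᵖ ⥤ ModuleCat.{w'} ℂ} {vol : 𝒮 → ℕ}

open scoped Classical in
/-- The cycles invariant under a subgroup `Γ`, with the help of all automorphisms. -/
theorem fixed_eq_zero (hT : IsSurfaceTheory T Om vol) {k : ℕ} (hk : BlochUpTo T Om vol k) {G : Type}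
    [Group G] [Finite G] {S : 𝒮} {a : G →* Aut S} (ha : Function.Injective a) (Γ : Subgroup G)
    (hdet : ∀ (n : ℕ) (σ : Representation ℂ G (Fin n → ℂ)),
      (∃ w : Fin n → ℂ, w ≠ 0 ∧ ∀ γ ∈ Γ, σ γ w = w) →
      ∃ H : Subgroup G, NoInvForms Om a H ∧ vol S < (k + 1) * Nat.card H ∧
        ∃ w : Fin n → ℂ, w ≠ 0 ∧ ∀ h ∈ H, σ h w = w)
    (x : T.obj S) (hx : ∀ γ ∈ Γ, push T (a γ).hom x = x) : x = 0 := by
  cases nonempty_fintype G
  have h1 := corr_eq_zero hT hk ha (fun g => if g ∈ Γ then 1 else 0) (fun n σ h => by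
    refine hdet n σ ?_
    obtain ⟨v, hv⟩ : ∃ v : Fin n → ℂ, (∑ g, (((if g ∈ Γ then 1 else 0 : ℚ) : ℚ) : ℂ) • σ g) v ≠ 0 := by
      by_contra hcon
      push Not at hcon
      exact h (LinearMap.ext hcon)
    refine ⟨_, hv, fun γ hγ => ?_⟩
    rw [LinearMap.sum_apply, map_sum]
    refine Fintype.sum_bijective (fun g => γ * g) (Group.mulLeft_bijective γ) _ _ fun g => ?_
    rw [LinearMap.smul_apply, LinearMap.smul_apply, map_smul, map_mul]
    have h2 : γ * g ∈ Γ ↔ g ∈ Γ := Γ.mul_mem_cancel_left hγ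
    simp only [h2]
    rfl) x
  have h2 : ∀ g : G, (if g ∈ Γ then (1 : ℚ) else 0) • push T (a g).hom x =
      (if g ∈ Γ then (1 : ℚ) else 0) • x := by
    intro g
    split_ifs with hg
    · rw [hx g hg]
    · rw [zero_smul, zero_smul]
  rw [Finset.sum_congr rfl fun g _ => h2 g, ← Finset.sum_smul] at h1
  rcases smul_eq_zero.1 h1 with h3 | h3
  · exfalso
    have h4 : (0 : ℚ) < ∑ g : G, if g ∈ Γ then (1 : ℚ) else 0 := by
      refine Finset.sum_pos' (fun g _ => by split_ifs <;> norm_num) ⟨1, Finset.mem_univ _, ?_⟩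
      rw [if_pos Γ.one_mem]
      norm_num
    rw [h3] at h4
    exact lt_irrefl _ h4
  · exact h3

end Pool.Agent.Q63.BL
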